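import Pool.Agent.Q293.DPG.Upper

/-!
# Families of vertex sets driving Builder's strategy, and the tower upper bound

Time is measured backwards: the vertex added when `r` further rounds remain has label `r`, and
the corresponding choice of Chooser is the bit `σ r`.
-/

namespace Pool.Agent.Q293.DPG

open SimpleGraph

/-- A family `V σ` of vertex sets, one for every sequence of choices `σ`, such that a pair of
`V σ` is not used after a different continuation. -/
def GoodFamily (T j : ℕ) (V : (ℕ → Bool) → Set ℕ) : Prop :=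
  (∀ σ, ∃ f : Fin j → ℕ, Function.Injective f ∧ ∀ i, f i ∈ V σ ∧ f i < T) ∧
  (∀ σ τ a b, a < b → a ∈ V σ → b ∈ V σ → a ∈ V τ → b ∈ V τ →
    (∀ s, a < s → s < T → σ s = τ s) → ∀ s < T, σ s = τ s)

/-- The graph after the history `σ` with `r` rounds remaining. -/
def hg {W : Type} (T : ℕ) (V : (ℕ → Bool) → Set ℕ) (σ : ℕ → Bool) (r : ℕ) (lab : W → ℕ) :
    SimpleGraph W where
  Adj x y := x ≠ y ∧ ∃ τ : ℕ → Bool, (∀ s, r ≤ s → s < T → τ s = σ s) ∧ lab x ∈ V τ ∧ lab y ∈ V τ
  symm := ⟨by
    rintro x y ⟨h, τ, h1, h2, h3⟩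
    exact ⟨h.symm, τ, h1, h3, h2⟩⟩
  loopless := ⟨fun x h => h.1 rfl⟩

lemma isContained_of_map {n : ℕ} {α : Type} {G : SimpleGraph α} (φ : Fin n → α)
    (h : ∀ a b, a ≠ b → G.Adj (φ a) (φ b)) : (completeGraph (Fin n)).IsContained G := by
  refine ⟨⟨⟨φ, fun {a b} hab => h a b hab.ne⟩, ?_⟩⟩
  intro a b hab
  by_contra hne
  have h1 : φ a = φ b := hab
  have := h a b hne
  rw [h1] at this
  exact G.irrefl this

/-- The number of units needed when `r` rounds remain. -/
def aN (r : ℕ) : ℕ := 2 ^ (r + 1) - 1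

lemma aN_succ (r : ℕ) : 2 * aN r + 1 ≤ aN (r + 1) := by
  unfold aN
  have h : 1 ≤ 2 ^ (r + 1) := Nat.one_le_two_pow
  rw [pow_succ 2 (r + 1)]
  omega

lemma forces_of_family {T j : ℕ} {V : (ℕ → Bool) → Set ℕ} (hV : GoodFamily T j V) :
    ∀ r ≤ T, ∀ (W : Type) (lab : W → ℕ), Function.Injective lab →
      (∀ s, (∃ w, lab w = s) ↔ r ≤ s ∧ s < T) → ∀ σ : ℕ → Bool,
      Forces (completeGraph (Fin (j + 2))) r (X (aN r) (hg T V σ r lab)) := by
  classical
  intro r
  induction r with
  | zero =>
    intro _ W lab hinj hrange σ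
    obtain ⟨f, hf, hf'⟩ := hV.1 σ
    have hex : ∀ i, ∃ w, lab w = f i := fun i => (hrange (f i)).mpr ⟨Nat.zero_le _, (hf' i).2⟩
    choose w hw using hex
    have h0 : 0 < aN 0 := by decide
    apply isContained_of_map (Fin.addCases (fun i : Fin j => Sum.inl (Sum.inl (w i)))
      (fun i : Fin 2 => Sum.inl (Sum.inr (0, decide (i = 1)))))
    intro a b hab
    induction a using Fin.addCases with
    | left a =>
      induction b using Fin.addCases with
      | left b =>
        rw [Fin.addCases_left, Fin.addCases_left]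
        apply X_adj_of_R
        apply R.ww
        have hne : a ≠ b := fun h => hab (by rw [h])
        refine ⟨?_, σ, fun _ _ _ => rfl, ?_, ?_⟩
        · intro h
          apply hne
          apply hf
          rw [← hw a, ← hw b, h]
        · rw [hw a]; exact (hf' a).1
        · rw [hw b]; exact (hf' b).1
      | right b =>
        rw [Fin.addCases_left, Fin.addCases_right]
        exact X_adj_of_R (R.wu _ _ _ h0)
    | right a =>
      induction b using Fin.addCases with
      | left b =>
        rw [Fin.addCases_left, Fin.addCases_right]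
        exact (X_adj_of_R (R.wu _ _ _ h0)).symm
      | right b =>
        rw [Fin.addCases_right, Fin.addCases_right]
        have hne : a ≠ b := fun h => hab (by rw [h])
        have huu := X_adj_of_R (R.uu (H := hg T V σ 0 lab) 0 h0)
        fin_cases a <;> fin_cases b
        · exact absurd rfl hne
        · exact huu
        · exact huu.symm
        · exact absurd rfl hne
  | succ r ih =>
    intro hr W lab hinj hrange σ
    let lab' : Option W → ℕ := fun o => o.elim r lab
    have hlab' : ∀ w, lab' (some w) = lab w := fun _ => rfl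
    have hge : ∀ w, r + 1 ≤ lab w := fun w => ((hrange (lab w)).mp ⟨w, rfl⟩).1
    have hlt : ∀ w, lab w < T := fun w => ((hrange (lab w)).mp ⟨w, rfl⟩).2
    have hinj' : Function.Injective lab' := by
      intro x y hxy
      rcases x with _ | x <;> rcases y with _ | y
      · rfl
      · have h1 : r = lab y := hxy
        have := hge y
        omega
      · have h1 : lab x = r := hxy
        have := hge x
        omega
      · rw [hinj hxy]
    have hrange' : ∀ s, (∃ w, lab' w = s) ↔ r ≤ s ∧ s < T := by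
      intro s
      constructor
      · rintro ⟨x, rfl⟩
        rcases x with _ | x
        · exact ⟨le_rfl, by show r < T; omega⟩
        · exact ⟨by have := hge x; show r ≤ lab x; omega, hlt x⟩
      · rintro ⟨h1, h2⟩
        rcases h1.lt_or_eq with h1 | h1
        · obtain ⟨w, hw⟩ := (hrange s).mpr ⟨h1, h2⟩
          exact ⟨some w, hw⟩
        · exact ⟨none, h1⟩
    have hstep : ∀ c : Bool, ∀ a b, (hg T V (Function.update σ r c) r lab').Adj (some a) (some b) →
        (hg T V σ (r + 1) lab).Adj a b := by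
      rintro c a b ⟨hne, τ, h1, h2, h3⟩
      refine ⟨fun h => hne (by rw [h]), τ, ?_, h2, h3⟩
      intro s hs hsT
      rw [h1 s (by omega) hsT, Function.update_of_ne (by omega)]
    refine step (by omega) (aN_succ r) _ (hg T V (Function.update σ r false) r lab')
      (hg T V (Function.update σ r true) r lab') (hstep false) (hstep true) ?_
      (ih (by omega) _ lab' hinj' hrange' _) (ih (by omega) _ lab' hinj' hrange' _)
    rw [disjoint_iff]
    ext x y
    simp only [SimpleGraph.inf_adj, SimpleGraph.bot_adj, iff_false, not_and]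
    rintro ⟨hne, τ₀, h01, h02, h03⟩ ⟨_, τ₁, h11, h12, h13⟩
    have hx : r ≤ lab' x := ((hrange' _).mp ⟨x, rfl⟩).1
    have hy : r ≤ lab' y := ((hrange' _).mp ⟨y, rfl⟩).1
    have hagree : ∀ s, r < s → s < T → τ₀ s = τ₁ s := by
      intro s hs hsT
      rw [h01 s hs.le hsT, h11 s hs.le hsT, Function.update_of_ne (by omega),
        Function.update_of_ne (by omega)]
    have hlabne : lab' x ≠ lab' y := fun h => hne (hinj' h)
    have hall : ∀ s < T, τ₀ s = τ₁ s := by
      rcases lt_or_gt_of_ne hlabne with h | h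
      · exact hV.2 τ₀ τ₁ _ _ h h02 h03 h12 h13 (fun s hs hsT => hagree s (by omega) hsT)
      · exact hV.2 τ₀ τ₁ _ _ h h03 h02 h13 h12 (fun s hs hsT => hagree s (by omega) hsT)
    have := hall r (by omega)
    rw [h01 r le_rfl (by omega), h11 r le_rfl (by omega), Function.update_self,
      Function.update_self] at this
    exact Bool.noConfusion this

/-! ### Block construction -/

/-- Block lengths: `1, 2, 8, 2048, ...` -/
def b : ℕ → ℕ
  | 0 => 1
  | n + 1 => b n * 2 ^ b n

/-- Block ends: `0, 1, 3, 11, 2059, ...` -/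
def e : ℕ → ℕ
  | 0 => 0
  | n + 1 => e n + b n

noncomputable def code (m : ℕ) : (Fin m → Bool) ≃ Fin (2 ^ m) :=
  Fintype.equivFinOfCardEq (by simp)

/-- The position of the vertex chosen in block `n`. -/
noncomputable def pos (σ : ℕ → Bool) : (n : ℕ) → Fin (b n)
  | 0 => ⟨0, by decide⟩
  | n + 1 => finProdFinEquiv (pos σ n, code (b n) (fun i => σ (e n + i)))

lemma e_mono {m n : ℕ} (h : m ≤ n) : e m ≤ e n := by
  induction n, h using Nat.le_induction with
  | base => exact le_rfl
  | succ n _ ih => exact le_trans ih (Nat.le_add_right _ _)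

lemma pos_lt (σ : ℕ → Bool) (n : ℕ) : e n + (pos σ n : ℕ) < e (n + 1) := by
  show _ < e n + b n
  have := (pos σ n).isLt
  omega

lemma block_unique {n m x : ℕ} (h1 : e n ≤ x) (h2 : x < e (n + 1)) (h3 : e m ≤ x)
    (h4 : x < e (m + 1)) : n = m := by
  rcases lt_trichotomy n m with h | h | h
  · have := e_mono (show n + 1 ≤ m from h); omega
  · exact h
  · have := e_mono (show m + 1 ≤ n from h); omega

lemma decode (σ τ : ℕ → Bool) : ∀ m, pos σ m = pos τ m → ∀ s < e m, σ s = τ s := by
  intro m
  induction m with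
  | zero => intro _ s hs; exact absurd hs (Nat.not_lt_zero _)
  | succ m ih =>
    intro h s hs
    have h1 := finProdFinEquiv.injective h
    rw [Prod.mk.injEq] at h1
    by_cases hsm : s < e m
    · exact ih h1.1 s hsm
    · have h2 := (code (b m)).injective h1.2
      have hs' : s < e m + b m := hs
      have h3 := congrFun h2 ⟨s - e m, by omega⟩
      simp only at h3
      have h4 : e m + (s - e m) = s := by omega
      rwa [h4] at h3

/-- The vertex sets. -/
def VV (j : ℕ) (σ : ℕ → Bool) : Set ℕ := {s | ∃ n < j, s = e n + (pos σ n : ℕ)}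

lemma goodFamily (j : ℕ) : GoodFamily (e j) j (VV j) := by
  constructor
  · intro σ
    refine ⟨fun i => e i + (pos σ i : ℕ), ?_, ?_⟩
    · intro i i' h
      have h' : e i + (pos σ i : ℕ) = e i' + (pos σ i' : ℕ) := h
      have := block_unique (Nat.le_add_right _ _) (pos_lt σ i)
        (by rw [h']; exact Nat.le_add_right _ _) (by rw [h']; exact pos_lt σ i')
      exact Fin.ext this
    · intro i
      exact ⟨⟨i, i.isLt, rfl⟩, lt_of_lt_of_le (pos_lt σ i) (e_mono i.isLt)⟩
  · rintro σ τ a c hac ⟨n, hn, rfl⟩ ⟨m, hm, rfl⟩ - ⟨m', hm', hmm⟩ hagree s hs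
    have h1 : m = m' := block_unique (Nat.le_add_right _ _) (pos_lt σ m)
      (by rw [hmm]; exact Nat.le_add_right _ _) (by rw [hmm]; exact pos_lt τ m')
    subst h1
    have h2 : pos σ m = pos τ m := by
      apply Fin.ext
      omega
    by_cases hsm : s < e m
    · exact decode σ τ m h2 s hsm
    · apply hagree s _ hs
      have hnm : n < m := by
        by_contra hcon
        push Not at hcon
        rcases hcon.lt_or_eq with h | h
        · have := e_mono (show m + 1 ≤ n from h)
          have := pos_lt σ m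
          omega
        · subst h; omega
      have := e_mono (show n + 1 ≤ m from hnm)
      have := pos_lt σ n
      omega

lemma b_pos (n : ℕ) : 1 ≤ b n := by
  induction n with
  | zero => exact le_rfl
  | succ n ih =>
    show 1 ≤ b n * 2 ^ b n
    exact Nat.one_le_iff_ne_zero.mpr (mul_ne_zero (by omega) (by positivity))

lemma two_mul_le_two_pow (n : ℕ) (h : 1 ≤ n) : 2 * n ≤ 2 ^ n := by
  induction n, h using Nat.le_induction with
  | base => norm_num
  | succ n hn ih =>
    rw [pow_succ]
    have : 2 ≤ 2 * n := by omega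
    omega

lemma two_b_le (n : ℕ) : 2 * b n ≤ tw (n + 1) := by
  induction n with
  | zero => exact le_rfl
  | succ n ih =>
    show 2 * (b n * 2 ^ b n) ≤ 2 ^ tw (n + 1)
    calc 2 * (b n * 2 ^ b n) = (2 * b n) * 2 ^ b n := by ring
      _ ≤ 2 ^ b n * 2 ^ b n := Nat.mul_le_mul_right _ (two_mul_le_two_pow _ (b_pos n))
      _ = 2 ^ (2 * b n) := by rw [← pow_add, two_mul]
      _ ≤ 2 ^ tw (n + 1) := Nat.pow_le_pow_right (by norm_num) ih

lemma e_le (n : ℕ) : e (n + 1) ≤ 2 * b n := by
  induction n with
  | zero => decide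
  | succ n ih =>
    show e (n + 1) + b (n + 1) ≤ 2 * b (n + 1)
    have h1 : b n * 2 ≤ b n * 2 ^ b n := by
      apply Nat.mul_le_mul_left
      calc 2 = 2 ^ 1 := rfl
        _ ≤ 2 ^ b n := Nat.pow_le_pow_right (by norm_num) (b_pos n)
    have h2 : b (n + 1) = b n * 2 ^ b n := rfl
    omega

lemma e_le_tw (j : ℕ) (hj : 1 ≤ j) : e j ≤ tw j := by
  obtain ⟨n, rfl⟩ : ∃ n, j = n + 1 := ⟨j - 1, by omega⟩
  exact le_trans (e_le n) (two_b_le n)

/-! ### The starting forest -/

lemma acyclic_of_rank {V : Type} (G : SimpleGraph V) (rank : V → ℕ)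
    (h : ∀ v a b, G.Adj v a → G.Adj v b → rank a ≤ rank v → rank b ≤ rank v → a = b) :
    G.IsAcyclic := by
  classical
  intro u c hc
  obtain ⟨v, hv, hmax⟩ := Finset.exists_max_image c.support.toFinset rank
    ⟨u, by simp⟩
  have hv' : v ∈ c.support := List.mem_toFinset.mp hv
  have hc' : (c.rotate v hv').IsCycle := (SimpleGraph.Walk.isCycle_rotate hv').mpr hc
  have hmem : ∀ x, x ∈ (c.rotate v hv').support → rank x ≤ rank v := by
    intro x hx
    apply hmax
    rw [List.mem_toFinset]
    exact (SimpleGraph.Walk.mem_support_rotate_iff c v hv').mp hx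
  have h1 := (c.rotate v hv').adj_snd hc'.not_nil
  have h2 := ((c.rotate v hv').adj_penultimate hc'.not_nil).symm
  exact hc'.snd_ne_penultimate (h v _ _ h1 h2
    (hmem _ (SimpleGraph.Walk.getVert_mem_support _ _))
    (hmem _ (SimpleGraph.Walk.getVert_mem_support _ _)))

/-- The rank on the vertices of the starting forest. -/
def rk : V2 Empty → ℕ
  | Sum.inl (Sum.inl _) => 0
  | Sum.inl (Sum.inr (_, false)) => 0
  | Sum.inl (Sum.inr (_, true)) => 1
  | Sum.inr _ => 2

lemma X_empty_acyclic (N : ℕ) (H : SimpleGraph Empty) : (X N H).IsAcyclic := by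
  apply acyclic_of_rank _ rk
  have hX : ∀ x y, (X N H).Adj x y → rk y ≤ rk x →
      (∃ n, x = Sum.inl (Sum.inr (n, true)) ∧ y = Sum.inl (Sum.inr (n, false))) ∨
      (∃ v i, x = Sum.inr (v, i) ∧ y = Sum.inl v) := by
    intro x y hxy hle
    rcases X_adj_iff.mp hxy with h | h
    · cases h with
      | ww a _ _ => exact a.elim
      | wu a _ _ _ => exact a.elim
      | uu n h => simp [rk] at hle
      | leaf v i hv h =>
        exfalso
        rcases v with a | ⟨n, b⟩
        · exact a.elim
        · cases b <;> simp [rk] at hle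
    · cases h with
      | ww a _ _ => exact a.elim
      | wu a _ _ _ => exact a.elim
      | uu n h => exact Or.inl ⟨n, rfl, rfl⟩
      | leaf v i hv h => exact Or.inr ⟨v, i, rfl, rfl⟩
  intro v x y hx hy h1 h2
  rcases hX v x hx h1 with ⟨n, e1, e2⟩ | ⟨v', i, e1, e2⟩ <;>
  rcases hX v y hy h2 with ⟨n', e1', e2'⟩ | ⟨v'', i', e1', e2'⟩
  · rw [e1] at e1'
    simp at e1'
    rw [e2, e2', e1']
  · rw [e1] at e1'; simp at e1'
  · rw [e1] at e1'; simp at e1'
  · rw [e1] at e1'
    have := Sum.inr_injective e1'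
    simp only [Prod.mk.injEq] at this
    rw [e2, e2', this.1]

lemma exists_fin_forest (N : ℕ) (hN : 0 < N) (H : SimpleGraph Empty) :
    ∃ (n : ℕ) (G : SimpleGraph (Fin n)), G.IsAcyclic ∧ EdgeEmb (X N H) G := by
  classical
  let F := (Fin N × Bool) ⊕ ((Fin N × Bool) × Fin N)
  let ι : F → V2 Empty := fun x => match x with
    | Sum.inl (n, b) => Sum.inl (Sum.inr ((n : ℕ), b))
    | Sum.inr ((n, b), i) => Sum.inr (Sum.inr ((n : ℕ), b), (i : ℕ))
  let S : Set (V2 Empty) := Set.range ι
  have hfin : Finite S := Set.finite_range ι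
  have hR : ∀ x y, R N H x y → x ∈ S ∧ y ∈ S := by
    intro x y h
    cases h with
    | ww a _ _ => exact a.elim
    | wu a _ _ _ => exact a.elim
    | uu n h => exact ⟨⟨Sum.inl (⟨n, h⟩, false), rfl⟩, ⟨Sum.inl (⟨n, h⟩, true), rfl⟩⟩
    | leaf v i hv h =>
      rcases v with a | ⟨n, b⟩
      · exact a.elim
      · have hn : n < N := hv
        exact ⟨⟨Sum.inl (⟨n, hn⟩, b), rfl⟩, ⟨Sum.inr ((⟨n, hn⟩, b), ⟨i, h⟩), rfl⟩⟩
  have hS : ∀ x y, (X N H).Adj x y → x ∈ S := by
    intro x y hxy
    rcases X_adj_iff.mp hxy with h | h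
    · exact (hR x y h).1
    · exact (hR y x h).2
  let s0 : S := ⟨_, ⟨Sum.inl (⟨0, hN⟩, false), rfl⟩⟩
  let eq : S ≃ Fin (Nat.card S) := Finite.equivFin S
  let g : Fin (Nat.card S) → V2 Empty := fun i => (eq.symm i : V2 Empty)
  have hg : Function.Injective g := fun i j h => eq.symm.injective (Subtype.ext h)
  let f : V2 Empty → Fin (Nat.card S) := fun x => if h : x ∈ S then eq ⟨x, h⟩ else eq s0
  have hgf : ∀ x ∈ S, g (f x) = x := by
    intro x hx
    simp only [f, g, dif_pos hx, Equiv.symm_apply_apply]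
  refine ⟨Nat.card S, (X N H).comap g, ?_, f, ?_, ?_⟩
  · exact SimpleGraph.IsAcyclic.comap (G := (X N H).comap g) (G' := X N H)
      ⟨g, fun {a b} h => h⟩ hg (X_empty_acyclic N H)
  · intro a b c d hab hcd hac
    rw [← hgf a (hS a b hab), ← hgf c (hS c d hcd), hac]
  · intro a b hab
    show (X N H).Adj (g (f a)) (g (f b))
    rw [hgf a (hS a b hab), hgf b (hS b a hab.symm)]
    exact hab

/-- Builder forces `K_{j+2}` in `e j` rounds from a finite forest. -/
theorem forces_from_forest (j : ℕ) :
    ∃ (n : ℕ) (G : SimpleGraph (Fin n)), G.IsAcyclic ∧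
      Forces (completeGraph (Fin (j + 2))) (e j) G := by
  have h := forces_of_family (goodFamily j) (e j) le_rfl Empty (fun x => x.elim)
    (fun x => x.elim) (by
      intro s
      constructor
      · rintro ⟨w, _⟩; exact w.elim
      · rintro ⟨h1, h2⟩; omega) (fun _ => false)
  have hpos : 0 < aN (e j) := by
    unfold aN
    have : 2 ≤ 2 ^ (e j + 1) := by
      calc 2 = 2 ^ 1 := rfl
        _ ≤ 2 ^ (e j + 1) := Nat.pow_le_pow_right (by norm_num) (by omega)
    omega
  obtain ⟨n, G, hG, hemb⟩ := exists_fin_forest (aN (e j)) hpos _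
  exact ⟨n, G, hG, forces_mono (by omega) (e j) hemb h⟩

end Pool.Agent.Q293.DPG
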