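import Mathlib

/-!
# The degree-preserving Builder-Chooser game

Definitions shared by MP_d3b86e and MP_f79b02, and monotonicity of the forcing relation.
-/

namespace Pool.Agent.Q293.DPG

open SimpleGraph

/-- `M` is a matching of `G`: a set of edges of `G`, no two of them with a common endpoint. -/
def IsMatchingSet {α : Type} (G : SimpleGraph α) (M : Set (Sym2 α)) : Prop :=
  M ⊆ G.edgeSet ∧ ∀ e ∈ M, ∀ e' ∈ M, ∀ v, v ∈ e → v ∈ e' → e = e'

/-- The graph `G⁺` after the growth step: the edges of the matching `M` are deleted and the new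
vertex `none` is joined to every endpoint of `M`. -/
def grow {α : Type} (G : SimpleGraph α) (M : Set (Sym2 α)) : SimpleGraph (Option α) where
  Adj x y := (∃ a b, x = some a ∧ y = some b ∧ G.Adj a b ∧ s(a, b) ∉ M) ∨
    (∃ b, x = none ∧ y = some b ∧ ∃ e ∈ M, b ∈ e) ∨
    (∃ a, x = some a ∧ y = none ∧ ∃ e ∈ M, a ∈ e)
  symm := ⟨by
    rintro x y (⟨a, b, rfl, rfl, h, h'⟩ | ⟨b, rfl, rfl, h⟩ | ⟨a, rfl, rfl, h⟩)
    · exact Or.inl ⟨b, a, rfl, rfl, h.symm, by rwa [Sym2.eq_swap]⟩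
    · exact Or.inr (Or.inr ⟨b, rfl, rfl, h⟩)
    · exact Or.inr (Or.inl ⟨a, rfl, rfl, h⟩)⟩
  loopless := ⟨by
    rintro x (⟨a, b, rfl, h1, h, -⟩ | ⟨b, rfl, h1, -⟩ | ⟨a, rfl, h1, -⟩)
    · rw [Option.some.inj h1] at h
      exact G.irrefl h
    · simp at h1
    · simp at h1⟩

/-- Builder has a strategy guaranteeing that after exactly `t` rounds, starting from `G`, the
graph contains a copy of `H`, whatever Chooser does. In each round Builder picks a matching `M`
and splits the edges of `grow G M` into two classes `G₀`, `G₁`; Chooser picks the class that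
becomes the next graph. -/
def Forces {W : Type} (H : SimpleGraph W) : ℕ → ∀ {α : Type}, SimpleGraph α → Prop
  | 0, _, G => H.IsContained G
  | t + 1, α, G => ∃ M : Set (Sym2 α), IsMatchingSet G M ∧
      ∃ G₀ G₁ : SimpleGraph (Option α), G₀ ⊔ G₁ = grow G M ∧ Disjoint G₀ G₁ ∧
        Forces H t G₀ ∧ Forces H t G₁

/-- The forcing time `τ_H(G)`: the least `t` such that Builder can guarantee a copy of `H`
in the graph after `t` rounds, and `⊤` if there is none. -/
noncomputable def forcingTime {W α : Type} (H : SimpleGraph W) (G : SimpleGraph α) : ℕ∞ :=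
  sInf {x : ℕ∞ | ∃ t : ℕ, x = (t : ℕ∞) ∧ Forces H t G}

/-- The tower function: `tw 0 = 1`, `tw (n+1) = 2 ^ tw n`. -/
def tw : ℕ → ℕ
  | 0 => 1
  | n + 1 => 2 ^ tw n

/-! ### Embeddings on the edges -/

/-- A map that is injective on the non-isolated vertices and preserves edges. -/
def EdgeEmb {α β : Type} (G : SimpleGraph α) (G' : SimpleGraph β) : Prop :=
  ∃ f : α → β, (∀ a b c d, G.Adj a b → G.Adj c d → f a = f c → a = c) ∧
    ∀ a b, G.Adj a b → G'.Adj (f a) (f b)

/-- Two graphs that embed edge-disjointly in `K` can be separated by a split of `K`. -/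
lemma exists_split {α₀ α₁ β : Type} (K : SimpleGraph β) (A : SimpleGraph α₀) (B : SimpleGraph α₁)
    (F : α₀ → β) (F' : α₁ → β)
    (hF : ∀ a b c d, A.Adj a b → A.Adj c d → F a = F c → a = c)
    (hF' : ∀ a b c d, B.Adj a b → B.Adj c d → F' a = F' c → a = c)
    (hA : ∀ a b, A.Adj a b → K.Adj (F a) (F b))
    (hB : ∀ a b, B.Adj a b → K.Adj (F' a) (F' b))
    (hdis : ∀ a b c d, A.Adj a b → B.Adj c d → F a = F' c → F b = F' d → False) :
    ∃ G₀ G₁ : SimpleGraph β, G₀ ⊔ G₁ = K ∧ Disjoint G₀ G₁ ∧ EdgeEmb A G₀ ∧ EdgeEmb B G₁ := by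
  let G₁ : SimpleGraph β :=
    { Adj := fun x y => ∃ c d, B.Adj c d ∧ F' c = x ∧ F' d = y
      symm := ⟨by
        rintro x y ⟨c, d, h, h1, h2⟩
        exact ⟨d, c, h.symm, h2, h1⟩⟩
      loopless := ⟨by
        rintro x ⟨c, d, h, h1, h2⟩
        have := hF' c d d c h h.symm (h1.trans h2.symm)
        subst this
        exact B.irrefl h⟩ }
  have hG₁ : G₁ ≤ K := by
    rintro x y ⟨c, d, h, rfl, rfl⟩
    exact hB c d h
  refine ⟨K \ G₁, G₁, ?_, disjoint_sdiff_self_left, ⟨F, hF, ?_⟩, ⟨F', hF', ?_⟩⟩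
  · rw [sup_comm]; exact sup_sdiff_cancel_right hG₁
  · intro a b hab
    rw [sdiff_adj]
    refine ⟨hA a b hab, ?_⟩
    rintro ⟨c, d, h, h1, h2⟩
    exact hdis a b c d hab h h1.symm h2.symm
  · intro a b hab
    exact ⟨a, b, hab, rfl, rfl⟩

lemma edgeEmb_trans {α β γ : Type} {G : SimpleGraph α} {G' : SimpleGraph β} {G'' : SimpleGraph γ}
    (h : EdgeEmb G G') (h' : EdgeEmb G' G'') : EdgeEmb G G'' := by
  obtain ⟨f, hf, hf'⟩ := h
  obtain ⟨g, hg, hg'⟩ := h'
  refine ⟨fun a => g (f a), ?_, fun a b hab => hg' _ _ (hf' _ _ hab)⟩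
  intro a b c d hab hcd hac
  exact hf a b c d hab hcd (hg _ _ _ _ (hf' _ _ hab) (hf' _ _ hcd) hac)

/-- Builder does not lose by having more edges. -/
lemma forces_mono {k : ℕ} (hk : 2 ≤ k) : ∀ (t : ℕ) {α β : Type} {G : SimpleGraph α}
    {G' : SimpleGraph β}, EdgeEmb G G' → Forces (completeGraph (Fin k)) t G →
    Forces (completeGraph (Fin k)) t G' := by
  intro t
  induction t with
  | zero =>
    rintro α β G G' ⟨f, hf, hf'⟩ ⟨φ⟩
    have hadj : ∀ i j : Fin k, i ≠ j → G.Adj (φ i) (φ j) := by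
      intro i j hij
      exact φ.toHom.map_adj hij
    refine ⟨⟨⟨fun i => f (φ i), ?_⟩, ?_⟩⟩
    · intro i j hij
      exact hf' _ _ (hadj i j hij)
    · intro i j hij
      have hnt : Nontrivial (Fin k) := Fin.nontrivial_iff_two_le.mpr hk
      obtain ⟨i', hi'⟩ := exists_ne i
      obtain ⟨j', hj'⟩ := exists_ne j
      exact φ.injective (hf _ _ _ _ (hadj i i' hi'.symm) (hadj j j' hj'.symm) hij)
  | succ t ih =>
    rintro α β G G' ⟨f, hf, hf'⟩ ⟨M, ⟨hM1, hM2⟩, G₀, G₁, hsup, hdis, h₀, h₁⟩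
    -- the matching in `G'`
    have hsupp : ∀ e ∈ M, ∀ v ∈ e, ∃ u, G.Adj v u := by
      intro e he v hv
      have h1 := hM1 he
      obtain ⟨u, rfl⟩ := Sym2.mem_iff_exists.mp hv
      exact ⟨u, h1⟩
    let M' : Set (Sym2 β) := Sym2.map f '' M
    have hM'mem : ∀ v, (∃ e ∈ M, v ∈ e) → ∃ e ∈ M', f v ∈ e := by
      rintro v ⟨e, he, hv⟩
      exact ⟨_, ⟨e, he, rfl⟩, Sym2.mem_map.mpr ⟨v, hv, rfl⟩⟩
    have hM' : IsMatchingSet G' M' := by
      constructor
      · rintro _ ⟨e, he, rfl⟩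
        have h1 := hM1 he
        induction e with
        | _ x y => exact hf' x y h1
      · rintro _ ⟨e, he, rfl⟩ _ ⟨e', he', rfl⟩ v hv hv'
        obtain ⟨a, ha, rfl⟩ := Sym2.mem_map.mp hv
        obtain ⟨c, hc, hca⟩ := Sym2.mem_map.mp hv'
        obtain ⟨b, hab⟩ := hsupp e he a ha
        obtain ⟨d, hcd⟩ := hsupp e' he' c hc
        have := hf c d a b hcd hab hca
        subst this
        rw [hM2 e he e' he' c ha hc]
    have hgrow : ∀ x y, (grow G M).Adj x y → (grow G' M').Adj (x.map f) (y.map f) := by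
      rintro x y (⟨a, b, rfl, rfl, h, h'⟩ | ⟨b, rfl, rfl, h⟩ | ⟨a, rfl, rfl, h⟩)
      · refine Or.inl ⟨f a, f b, rfl, rfl, hf' _ _ h, ?_⟩
        rintro ⟨e, he, hee⟩
        apply h'
        have h1 := hM1 he
        induction e with
        | _ c d =>
          replace h1 : G.Adj c d := h1
          rw [Sym2.map_mk, Sym2.eq_iff] at hee
          rcases hee with ⟨h2, h3⟩ | ⟨h2, h3⟩
          · have e1 := hf _ _ _ _ h1 h h2
            have e2 := hf _ _ _ _ h1.symm h.symm h3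
            rw [← e1, ← e2]; exact he
          · have e1 := hf _ _ _ _ h1 h.symm h2
            have e2 := hf _ _ _ _ h1.symm h h3
            rw [← e1, ← e2, Sym2.eq_swap]; exact he
      · exact Or.inr (Or.inl ⟨f b, rfl, rfl, hM'mem b h⟩)
      · exact Or.inr (Or.inr ⟨f a, rfl, rfl, hM'mem a h⟩)
    have hsupp2 : ∀ x y, (grow G M).Adj x y → ∀ v, x = some v → ∃ u, G.Adj v u := by
      rintro x y (⟨a, b, rfl, rfl, h, h'⟩ | ⟨b, rfl, rfl, h⟩ | ⟨a, rfl, rfl, h⟩) v hv
      · rw [← Option.some.inj hv]; exact ⟨b, h⟩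
      · simp at hv
      · rw [← Option.some.inj hv]
        obtain ⟨e, he, hae⟩ := h
        exact hsupp e he a hae
    have hinj : ∀ x y z w, (grow G M).Adj x y → (grow G M).Adj z w →
        x.map f = z.map f → x = z := by
      intro x y z w hxy hzw hxz
      rcases x with _ | a <;> rcases z with _ | c
      · rfl
      · simp at hxz
      · simp at hxz
      · obtain ⟨b, hab⟩ := hsupp2 _ _ hxy a rfl
        obtain ⟨d, hcd⟩ := hsupp2 _ _ hzw c rfl
        rw [hf a b c d hab hcd (Option.some.inj hxz)]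
    have hle₀ : ∀ x y, G₀.Adj x y → (grow G M).Adj x y := by
      intro x y h; rw [← hsup]; exact Or.inl h
    have hle₁ : ∀ x y, G₁.Adj x y → (grow G M).Adj x y := by
      intro x y h; rw [← hsup]; exact Or.inr h
    obtain ⟨G₀', G₁', hs, hd, he₀, he₁⟩ := exists_split (grow G' M') G₀ G₁
      (Option.map f) (Option.map f)
      (fun a b c d hab hcd => hinj a b c d (hle₀ _ _ hab) (hle₀ _ _ hcd))
      (fun a b c d hab hcd => hinj a b c d (hle₁ _ _ hab) (hle₁ _ _ hcd))
      (fun a b hab => hgrow _ _ (hle₀ _ _ hab)) (fun a b hab => hgrow _ _ (hle₁ _ _ hab))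
      (by
        intro a b c d hab hcd hac hbd
        have e1 := hinj a b c d (hle₀ _ _ hab) (hle₁ _ _ hcd) hac
        have e2 := hinj b a d c (hle₀ _ _ hab).symm (hle₁ _ _ hcd).symm hbd
        subst e1 e2
        have : (G₀ ⊓ G₁).Adj a b := ⟨hab, hcd⟩
        rw [hdis.eq_bot] at this
        exact this)
    exact ⟨M', hM', G₀', G₁', hs, hd, ih he₀ h₀, ih he₁ h₁⟩

end Pool.Agent.Q293.DPG
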