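import Pool.Agent.Q293.DPG.Game

/-!
# Chooser's strategy

The vertex added when `r` further rounds remain has label `r`. A pair of labels is bad if both
lie in the same block; Chooser keeps the weighted number of bad edges small.
-/

namespace Pool.Agent.Q293.DPG

open SimpleGraph

/-- A labelling of the added vertices (the old vertices, with label `none`, span no triangle). -/
structure Lab {α : Type} (G : SimpleGraph α) (lab : α → Option ℕ) (r T : ℕ) : Prop where
  inj : ∀ a b i, lab a = some i → lab b = some i → a = b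
  lo : ∀ a i, lab a = some i → r ≤ i
  hi : ∀ a i, lab a = some i → i < T
  tf : ∀ a b c, lab a = none → lab b = none → lab c = none →
    G.Adj a b → G.Adj b c → G.Adj a c → False

/-- The bad edges. -/
def badE {α : Type} (cls : ℕ → ℕ) (G : SimpleGraph α) (lab : α → Option ℕ) : Set (ℕ × ℕ) :=
  {p | p.1 < p.2 ∧ cls p.1 = cls p.2 ∧ ∃ a b, lab a = some p.1 ∧ lab b = some p.2 ∧ G.Adj a b}

/-- The number of bad pairs whose later vertex has label `a`. -/
def beta (cls : ℕ → ℕ) (T a : ℕ) : ℕ := ((Finset.Ioo a T).filter (fun b => cls b = cls a)).card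

lemma badE_finite {α : Type} {cls : ℕ → ℕ} {G : SimpleGraph α} {lab : α → Option ℕ} {r T : ℕ}
    (h : Lab G lab r T) : (badE cls G lab).Finite := by
  apply Set.Finite.subset ((Finset.range T ×ˢ Finset.range T).finite_toSet)
  rintro ⟨i, q⟩ ⟨_, _, a, b, ha, hb, _⟩
  rw [Finset.mem_coe, Finset.mem_product, Finset.mem_range, Finset.mem_range]
  exact ⟨h.hi a i ha, h.hi b q hb⟩

lemma potential (m T : ℕ) (cls : ℕ → ℕ) (hcls : ∀ s < T, cls s < m) :
    ∀ r ≤ T, ∀ (α : Type) (G : SimpleGraph α) (lab : α → Option ℕ), Lab G lab r T →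
      Forces (completeGraph (Fin (m + 3))) r G →
      2 ^ r ≤ (badE cls G lab).ncard + ∑ a ∈ Finset.range r, beta cls T a * 2 ^ (r - a - 1) := by
  classical
  intro r
  induction r with
  | zero =>
    rintro _ α G lab hlab ⟨φ⟩
    have hadj : ∀ i j : Fin (m + 3), i ≠ j → G.Adj (φ i) (φ j) := by
      intro i j hij
      exact φ.toHom.map_adj hij
    set S : Finset (Fin (m + 3)) := Finset.univ.filter (fun i => lab (φ i) = none) with hS
    have hS2 : S.card ≤ 2 := by
      by_contra hcon
      push Not at hcon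
      obtain ⟨a, b, c, ha, hb, hc, hab, hac, hbc⟩ := Finset.two_lt_card_iff.mp hcon
      simp only [hS, Finset.mem_filter, Finset.mem_univ, true_and] at ha hb hc
      exact hlab.tf _ _ _ ha hb hc (hadj a b hab) (hadj b c hbc) (hadj a c hac)
    have hSc : m < Sᶜ.card := by
      rw [Finset.card_compl, Fintype.card_fin]
      omega
    have hlabel : ∀ i ∈ Sᶜ, ∃ s, lab (φ i) = some s := by
      intro i hi
      rw [Finset.mem_compl, hS, Finset.mem_filter] at hi
      push Not at hi
      exact Option.ne_none_iff_exists'.mp (hi (Finset.mem_univ _))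
    let L : Fin (m + 3) → ℕ := fun i => (lab (φ i)).getD 0
    have hL : ∀ i ∈ Sᶜ, lab (φ i) = some (L i) := by
      intro i hi
      obtain ⟨s, hs⟩ := hlabel i hi
      simp only [L, hs, Option.getD_some]
    obtain ⟨i, hi, i', hi', hne, hcc⟩ := Finset.exists_ne_map_eq_of_card_lt_of_maps_to
      (s := Sᶜ) (t := Finset.range m) (f := fun i => cls (L i))
      (by rw [Finset.card_range]; exact hSc)
      (by
        intro i hi
        rw [Finset.mem_coe, Finset.mem_range]
        exact hcls _ (hlab.hi _ _ (hL i (Finset.mem_coe.mp hi))))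
    have hLne : L i ≠ L i' := by
      intro h
      apply hne
      apply φ.injective
      exact hlab.inj _ _ (L i) (hL i hi) (by rw [h]; exact hL i' hi')
    have hmem : (badE cls G lab).Nonempty := by
      rcases lt_or_gt_of_ne hLne with h | h
      · exact ⟨(L i, L i'), h, hcc, _, _, hL i hi, hL i' hi', hadj i i' hne⟩
      · exact ⟨(L i', L i), h, hcc.symm, _, _, hL i' hi', hL i hi, hadj i' i hne.symm⟩
    have := (Set.ncard_pos (badE_finite hlab)).mpr hmem
    simp only [Finset.range_zero, Finset.sum_empty, pow_zero]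
    omega
  | succ r ih =>
    rintro hr α G lab hlab ⟨M, ⟨hM, hM'⟩, G₀, G₁, hsup, hdis, h₀, h₁⟩
    let lab' : Option α → Option ℕ := fun o => o.elim (some r) lab
    have hle₀ : ∀ x y, G₀.Adj x y → (grow G M).Adj x y := by
      intro x y h; rw [← hsup]; exact Or.inl h
    have hle₁ : ∀ x y, G₁.Adj x y → (grow G M).Adj x y := by
      intro x y h; rw [← hsup]; exact Or.inr h
    have hgrow : ∀ a b, (grow G M).Adj (some a) (some b) → G.Adj a b := by
      rintro a b (⟨a', b', h1, h2, h, h'⟩ | ⟨b, h1, _⟩ | ⟨a, _, h1, _⟩)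
      · rw [Option.some.inj h1, Option.some.inj h2]; exact h
      · simp at h1
      · simp at h1
    have hlab' : ∀ K : SimpleGraph (Option α), (∀ x y, K.Adj x y → (grow G M).Adj x y) →
        Lab K lab' r T := by
      intro K hK
      constructor
      · intro a b i ha hb
        rcases a with _ | a <;> rcases b with _ | b
        · rfl
        · have h1 : some r = some i := ha
          have h2 := hlab.lo b i hb
          have := Option.some.inj h1
          omega
        · have h1 : some r = some i := hb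
          have h2 := hlab.lo a i ha
          have := Option.some.inj h1
          omega
        · rw [hlab.inj a b i ha hb]
      · intro a i ha
        rcases a with _ | a
        · have h1 : some r = some i := ha
          have := Option.some.inj h1
          omega
        · have := hlab.lo a i ha
          omega
      · intro a i ha
        rcases a with _ | a
        · have h1 : some r = some i := ha
          have := Option.some.inj h1
          omega
        · exact hlab.hi a i ha
      · intro a b c ha hb hc hab hbc hac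
        rcases a with _ | a
        · simp [lab'] at ha
        rcases b with _ | b
        · simp [lab'] at hb
        rcases c with _ | c
        · simp [lab'] at hc
        exact hlab.tf a b c ha hb hc (hgrow _ _ (hK _ _ hab)) (hgrow _ _ (hK _ _ hbc))
          (hgrow _ _ (hK _ _ hac))
    have i₀ := ih (by omega) _ G₀ lab' (hlab' G₀ hle₀) h₀
    have i₁ := ih (by omega) _ G₁ lab' (hlab' G₁ hle₁) h₁
    -- counting the bad edges
    let N : Set (ℕ × ℕ) := (fun b => (r, b)) '' ((Finset.Ioo r T).filter (fun b => cls b = cls r) :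
      Finset ℕ)
    have hNcard : N.ncard ≤ beta cls T r := by
      have := Set.ncard_image_le (f := fun b : ℕ => (r, b))
        (((Finset.Ioo r T).filter (fun b => cls b = cls r)).finite_toSet)
      rw [Set.ncard_coe_finset] at this
      exact this
    have hsub : ∀ K : SimpleGraph (Option α), (∀ x y, K.Adj x y → (grow G M).Adj x y) →
        badE cls K lab' ⊆ badE cls G lab ∪ N := by
      rintro K hK ⟨i, q⟩ ⟨hlt, hc, a, b, ha, hb, hab⟩
      simp only at hlt hc ha hb
      rcases a with _ | a
      · right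
        have h1 : some r = some i := ha
        have h2 := Option.some.inj h1
        subst h2
        refine ⟨q, ?_, rfl⟩
        rw [Finset.mem_coe, Finset.mem_filter, Finset.mem_Ioo]
        exact ⟨⟨hlt, (hlab' K hK).hi b q hb⟩, hc.symm⟩
      · rcases b with _ | b
        · exfalso
          have h1 : some r = some q := hb
          have h2 := Option.some.inj h1
          have h3 := hlab.lo a i ha
          omega
        · left
          exact ⟨hlt, hc, a, b, ha, hb, hgrow _ _ (hK _ _ hab)⟩
    have hdisj : Disjoint (badE cls G₀ lab') (badE cls G₁ lab') := by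
      rw [Set.disjoint_left]
      rintro ⟨i, q⟩ ⟨_, _, a, b, ha, hb, hab⟩ ⟨_, _, a', b', ha', hb', hab'⟩
      have e1 := (hlab' G₀ hle₀).inj a a' i ha ha'
      have e2 := (hlab' G₀ hle₀).inj b b' q hb hb'
      subst e1 e2
      have : (G₀ ⊓ G₁).Adj a b := ⟨hab, hab'⟩
      rw [hdis.eq_bot] at this
      exact this
    have hcount : (badE cls G₀ lab').ncard + (badE cls G₁ lab').ncard ≤
        (badE cls G lab).ncard + beta cls T r := by
      rw [← Set.ncard_union_eq hdisj (badE_finite (hlab' G₀ hle₀)) (badE_finite (hlab' G₁ hle₁))]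
      have hNfin : N.Finite := Set.Finite.image _ (Finset.finite_toSet _)
      calc (badE cls G₀ lab' ∪ badE cls G₁ lab').ncard
          ≤ (badE cls G lab ∪ N).ncard := Set.ncard_le_ncard
            (Set.union_subset (hsub G₀ hle₀) (hsub G₁ hle₁)) ((badE_finite hlab).union hNfin)
        _ ≤ (badE cls G lab).ncard + N.ncard := Set.ncard_union_le _ _
        _ ≤ _ := by omega
    rw [Finset.sum_range_succ]
    have hsum : ∑ a ∈ Finset.range r, beta cls T a * 2 ^ (r + 1 - a - 1) =
        2 * ∑ a ∈ Finset.range r, beta cls T a * 2 ^ (r - a - 1) := by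
      rw [Finset.mul_sum]
      apply Finset.sum_congr rfl
      intro a ha
      rw [Finset.mem_range] at ha
      have h1 : r + 1 - a - 1 = (r - a - 1) + 1 := by omega
      rw [h1, pow_succ]
      ring
    rw [hsum]
    have h2 : r + 1 - r - 1 = 0 := by omega
    rw [h2, pow_zero, mul_one, pow_succ]
    omega

/-! ### The blocks -/

/-- Block ends `0, 2, 4, 7, 20, ...` -/
def y : ℕ → ℕ
  | 0 => 0
  | n + 1 => tw n + (n + 1)

lemma tw_pos (n : ℕ) : 0 < tw n := by
  cases n with
  | zero => exact Nat.one_pos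
  | succ n => exact Nat.two_pow_pos _

lemma tw_lt (n : ℕ) : tw n < tw (n + 1) := Nat.lt_two_pow_self

lemma y_lt (n : ℕ) : y n < y (n + 1) := by
  cases n with
  | zero => decide
  | succ n =>
    show tw n + (n + 1) < tw (n + 1) + (n + 1 + 1)
    have := tw_lt n
    omega

lemma y_mono {m n : ℕ} (h : m ≤ n) : y m ≤ y n := by
  induction n, h using Nat.le_induction with
  | base => exact le_rfl
  | succ n _ ih => exact le_trans ih (y_lt n).le

lemma le_y (n : ℕ) : n ≤ y n := by
  induction n with
  | zero => exact Nat.zero_le _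
  | succ n ih => have := y_lt n; omega

/-- The block containing `a`. -/
def cls (a : ℕ) : ℕ := Nat.findGreatest (fun n => y n ≤ a) a

lemma y_cls_le (a : ℕ) : y (cls a) ≤ a :=
  Nat.findGreatest_spec (P := fun n => y n ≤ a) (Nat.zero_le a) (Nat.zero_le a)

lemma le_cls {a n : ℕ} (h : y n ≤ a) : n ≤ cls a :=
  Nat.le_findGreatest (le_trans (le_y n) h) h

lemma lt_y_cls (a : ℕ) : a < y (cls a + 1) := by
  by_contra h
  push Not at h
  have := le_cls h
  omega

lemma cls_lt {a m : ℕ} (h : a < y m) : cls a < m := by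
  by_contra hcon
  push Not at hcon
  have := y_mono hcon
  have := y_cls_le a
  omega

lemma cls_eq {a n : ℕ} (h1 : y n ≤ a) (h2 : a < y (n + 1)) : cls a = n := by
  have := le_cls h1
  have := cls_lt h2
  omega

lemma beta_le (T a : ℕ) : beta cls T a ≤ y (cls a + 1) - a - 1 := by
  unfold beta
  calc ((Finset.Ioo a T).filter (fun b => cls b = cls a)).card
      ≤ (Finset.Ioo a (y (cls a + 1))).card := by
        apply Finset.card_le_card
        intro b hb
        rw [Finset.mem_filter, Finset.mem_Ioo] at hb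
        rw [Finset.mem_Ioo]
        refine ⟨hb.1.1, ?_⟩
        rw [← hb.2]
        exact lt_y_cls b
    _ = _ := Nat.card_Ioo _ _

/-- The weight of the bad pairs with later vertex `a`. -/
noncomputable def wt (a : ℕ) : ℝ := ((y (cls a + 1) : ℝ) - a - 1) / 2 ^ (a + 1)

lemma wt_nonneg (a : ℕ) : 0 ≤ wt a := by
  unfold wt
  apply div_nonneg _ (by positivity)
  have : (a : ℝ) + 1 ≤ y (cls a + 1) := by exact_mod_cast lt_y_cls a
  linarith

lemma block_sum (x D : ℕ) : ∑ a ∈ Finset.Ico x (x + D + 1),
    (((x + D + 1 : ℕ) : ℝ) - a - 1) / 2 ^ (a + 1) = ((D : ℝ) - 1 + 1 / 2 ^ D) / 2 ^ x := by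
  induction D with
  | zero =>
    simp
  | succ D ih =>
    have h1 : ∑ a ∈ Finset.Ico x (x + (D + 1) + 1),
        (((x + (D + 1) + 1 : ℕ) : ℝ) - a - 1) / 2 ^ (a + 1) =
        ∑ a ∈ Finset.Ico x (x + D + 1), ((((x + D + 1 : ℕ) : ℝ) - a - 1) / 2 ^ (a + 1) +
          1 / 2 ^ (a + 1)) := by
      rw [Finset.sum_Ico_succ_top (by omega)]
      have : (((x + (D + 1) + 1 : ℕ) : ℝ) - ((x + (D + 1) : ℕ) : ℝ) - 1) /
          2 ^ (x + (D + 1) + 1) = 0 := by
        push_cast; ring
      rw [this, add_zero]
      apply Finset.sum_congr rfl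
      intro a _
      push_cast
      ring
    rw [h1, Finset.sum_add_distrib, ih]
    have h2 : ∀ E : ℕ, ∑ a ∈ Finset.Ico x (x + E), (1 : ℝ) / 2 ^ (a + 1) =
        (1 - 1 / 2 ^ E) / 2 ^ x := by
      intro E
      induction E with
      | zero => simp
      | succ E ihE =>
        rw [show x + (E + 1) = (x + E) + 1 by ring, Finset.sum_Ico_succ_top (by omega), ihE]
        field_simp
        ring
    rw [show x + D + 1 = x + (D + 1) by ring, h2 (D + 1)]
    push_cast
    field_simp
    ring

/-- Total weight of the first `m` blocks. -/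
noncomputable def S (m : ℕ) : ℝ := ∑ a ∈ Finset.range (y m), wt a

lemma S_succ (n : ℕ) : S (n + 1) = S n +
    (((y (n + 1) - y n - 1 : ℕ) : ℝ) - 1 + 1 / 2 ^ (y (n + 1) - y n - 1)) / 2 ^ (y n) := by
  unfold S
  rw [← Finset.sum_range_add_sum_Ico wt (y_lt n).le]
  congr 1
  have hlt := y_lt n
  rw [← block_sum (y n) (y (n + 1) - y n - 1)]
  have h1 : y n + (y (n + 1) - y n - 1) + 1 = y (n + 1) := by omega
  rw [h1]
  apply Finset.sum_congr rfl
  intro a ha
  rw [Finset.mem_Ico] at ha
  unfold wt
  rw [cls_eq ha.1 ha.2]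

lemma S_four : S 4 ≤ 0.79 := by
  have h0 : S 0 = 0 := by simp [S, y]
  have e0 : y 0 = 0 := rfl
  have e1 : y 1 = 2 := rfl
  have e2 : y 2 = 4 := rfl
  have e3 : y 3 = 7 := rfl
  have e4 : y 4 = 20 := rfl
  rw [S_succ 3, S_succ 2, S_succ 1, S_succ 0, h0, e0, e1, e2, e3, e4]
  norm_num

lemma S_add_four (n : ℕ) : S (n + 4) ≤ 0.79 + 1 / 8 - 1 / 2 ^ (n + 3) := by
  induction n with
  | zero => have := S_four; norm_num; linarith
  | succ n ih =>
    rw [show n + 1 + 4 = (n + 4) + 1 by ring, S_succ (n + 4)]
    have hy1 : y (n + 4 + 1) = tw (n + 4) + (n + 5) := rfl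
    have hy0 : y (n + 4) = tw (n + 3) + (n + 4) := rfl
    have htw : tw (n + 4) = 2 ^ tw (n + 3) := rfl
    set D := y (n + 4 + 1) - y (n + 4) - 1 with hD
    have hDle : D ≤ tw (n + 4) := by omega
    have hb : ((D : ℝ) - 1 + 1 / 2 ^ D) / 2 ^ (y (n + 4)) ≤ 1 / 2 ^ (n + 4) := by
      have h1 : (1 : ℝ) / 2 ^ D ≤ 1 := by
        rw [div_le_one (by positivity)]
        exact one_le_pow₀ (by norm_num)
      have h2 : (D : ℝ) ≤ 2 ^ tw (n + 3) := by
        have : (D : ℝ) ≤ (tw (n + 4) : ℕ) := by exact_mod_cast hDle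
        rw [htw] at this
        push_cast at this
        exact this
      rw [hy0, pow_add, div_le_div_iff₀ (by positivity) (by positivity)]
      have h3 : ((D : ℝ) - 1 + 1 / 2 ^ D) ≤ 2 ^ tw (n + 3) := by linarith
      calc ((D : ℝ) - 1 + 1 / 2 ^ D) * 2 ^ (n + 4) ≤ 2 ^ tw (n + 3) * 2 ^ (n + 4) := by
            apply mul_le_mul_of_nonneg_right h3 (by positivity)
        _ = 1 * (2 ^ tw (n + 3) * 2 ^ (n + 4)) := by ring
    have h4 : (1 : ℝ) / 2 ^ (n + 3) = 2 * (1 / 2 ^ (n + 4)) := by
      rw [show n + 4 = (n + 3) + 1 by ring, pow_succ (2 : ℝ) (n + 3)]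
      field_simp
    rw [show n + 1 + 3 = n + 4 by ring]
    rw [h4] at ih
    linarith

lemma S_lt_one (m : ℕ) : S m < 1 := by
  have h1 : S m ≤ S (m + 4) := by
    unfold S
    apply Finset.sum_le_sum_of_subset_of_nonneg
    · intro a ha
      rw [Finset.mem_range] at ha ⊢
      exact lt_of_lt_of_le ha (y_mono (by omega))
    · intro a _ _; exact wt_nonneg a
  have h2 := S_add_four m
  have h3 : (0 : ℝ) < 1 / 2 ^ (m + 3) := by positivity
  linarith

/-- Chooser avoids `K_{m+3}` for `y m` rounds, from every triangle-free graph. -/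
theorem not_forces (m T : ℕ) (hT : T ≤ y m) (α : Type) (G : SimpleGraph α) (hG : G.CliqueFree 3) :
    ¬ Forces (completeGraph (Fin (m + 3))) T G := by
  intro hF
  have hlab : Lab G (fun _ : α => (none : Option ℕ)) T T := by
    constructor
    · intro a b i ha; simp at ha
    · intro a i ha; simp at ha
    · intro a i ha; simp at ha
    · intro a b c _ _ _ hab hbc hac
      classical
      apply hG {a, b, c}
      rw [SimpleGraph.is3Clique_triple_iff]
      exact ⟨hab, hac, hbc⟩
  have h := potential m T cls (fun s hs => cls_lt (lt_of_lt_of_le hs hT)) T le_rfl α G _ hlab hF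
  have hbad : badE cls G (fun _ : α => (none : Option ℕ)) = ∅ := by
    ext p
    simp [badE]
  rw [hbad, Set.ncard_empty, zero_add] at h
  have h' : (2 : ℝ) ^ T ≤ ∑ a ∈ Finset.range T, (beta cls T a : ℝ) * 2 ^ (T - a - 1) := by
    exact_mod_cast h
  have h2 : ∑ a ∈ Finset.range T, (beta cls T a : ℝ) * 2 ^ (T - a - 1) ≤
      2 ^ T * ∑ a ∈ Finset.range T, wt a := by
    rw [Finset.mul_sum]
    apply Finset.sum_le_sum
    intro a ha
    rw [Finset.mem_range] at ha
    have h3 : (beta cls T a : ℝ) ≤ (y (cls a + 1) : ℝ) - a - 1 := by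
      have h4 := beta_le T a
      have h5 := lt_y_cls a
      have h6 : beta cls T a + a + 1 ≤ y (cls a + 1) := by omega
      have h7 : (beta cls T a : ℝ) + a + 1 ≤ y (cls a + 1) := by exact_mod_cast h6
      linarith
    have h8 : (2 : ℝ) ^ T * wt a = ((y (cls a + 1) : ℝ) - a - 1) * 2 ^ (T - a - 1) := by
      unfold wt
      have : (2 : ℝ) ^ T = 2 ^ (T - a - 1) * 2 ^ (a + 1) := by
        rw [← pow_add]; congr 1; omega
      rw [this]
      field_simp
    rw [h8]
    exact mul_le_mul_of_nonneg_right h3 (by positivity)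
  have h3 : ∑ a ∈ Finset.range T, wt a ≤ S m := by
    unfold S
    apply Finset.sum_le_sum_of_subset_of_nonneg
    · intro a ha
      rw [Finset.mem_range] at ha ⊢
      omega
    · intro a _ _; exact wt_nonneg a
  have h4 := S_lt_one m
  have h5 : (0 : ℝ) < 2 ^ T := by positivity
  nlinarith

end Pool.Agent.Q293.DPG
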