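import Pool.Agent.Q293.DPG.Game

/-!
# Builder's strategy

`X N H` consists of a graph `H`, of `N` edges (units) completely joined to `H`, and of `N`
pendant leaves at every vertex of `H` and every end of a unit. One round turns `X N H` into a graph
containing `X N' H₀` or `X N' H₁`, whenever `H₀`, `H₁` are disjoint graphs on `Option W` whose
edges inside `W` are edges of `H`.
-/

namespace Pool.Agent.Q293.DPG

open SimpleGraph

/-- Vertices of the unit structure. -/
abbrev V1 (W : Type) : Type := W ⊕ (ℕ × Bool)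

/-- Vertices of the unit structure together with the leaves. -/
abbrev V2 (W : Type) : Type := V1 W ⊕ (V1 W × ℕ)

/-- Which vertices carry leaves. -/
def act {W : Type} (N : ℕ) : V1 W → Prop
  | Sum.inl _ => True
  | Sum.inr p => p.1 < N

/-- The basic relation of `X N H`. -/
inductive R {W : Type} (N : ℕ) (H : SimpleGraph W) : V2 W → V2 W → Prop
  | ww (a b : W) (h : H.Adj a b) : R N H (Sum.inl (Sum.inl a)) (Sum.inl (Sum.inl b))
  | wu (a : W) (n : ℕ) (b : Bool) (h : n < N) :
      R N H (Sum.inl (Sum.inl a)) (Sum.inl (Sum.inr (n, b)))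
  | uu (n : ℕ) (h : n < N) :
      R N H (Sum.inl (Sum.inr (n, false))) (Sum.inl (Sum.inr (n, true)))
  | leaf (v : V1 W) (i : ℕ) (hv : act N v) (h : i < N) : R N H (Sum.inl v) (Sum.inr (v, i))

/-- The structure graph. -/
def X {W : Type} (N : ℕ) (H : SimpleGraph W) : SimpleGraph (V2 W) := SimpleGraph.fromRel (R N H)

lemma X_adj_of_R {W : Type} {N : ℕ} {H : SimpleGraph W} {x y : V2 W} (h : R N H x y) :
    (X N H).Adj x y := by
  rw [X, SimpleGraph.fromRel_adj]
  refine ⟨?_, Or.inl h⟩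
  cases h with
  | ww a b h => intro he; exact h.ne (Sum.inl_injective (Sum.inl_injective he))
  | wu a n b h => simp
  | uu n h => simp
  | leaf v i hv h => simp

lemma X_adj_iff {W : Type} {N : ℕ} {H : SimpleGraph W} {x y : V2 W} :
    (X N H).Adj x y ↔ R N H x y ∨ R N H y x := by
  constructor
  · intro h
    rw [X, SimpleGraph.fromRel_adj] at h
    exact h.2
  · rintro (h | h)
    · exact X_adj_of_R h
    · exact (X_adj_of_R h).symm

/-- The embedding of the next structure, for the class `c ∈ {0,1}`. -/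
def nextMap {W : Type} (c : ℕ) : V2 (Option W) → Option (V2 W)
  | Sum.inl (Sum.inl none) => none
  | Sum.inl (Sum.inl (some w)) => some (Sum.inl (Sum.inl w))
  | Sum.inl (Sum.inr (n, b)) => some (Sum.inl (Sum.inr (2 * n + c, b)))
  | Sum.inr (Sum.inl none, i) => some (Sum.inr (Sum.inr (2 * i + c, false), 0))
  | Sum.inr (Sum.inl (some w), i) => some (Sum.inr (Sum.inl w, 2 * i + 1 + c))
  | Sum.inr (Sum.inr (n, b), i) => some (Sum.inr (Sum.inr (2 * n + c, b), i + 1))

lemma nextMap_injective {W : Type} (c : ℕ) : Function.Injective (nextMap (W := W) c) := by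
  intro x y h
  rcases x with ((_ | w) | ⟨n, b⟩) | ⟨((_ | w) | ⟨n, b⟩), i⟩ <;>
  rcases y with ((_ | w') | ⟨n', b'⟩) | ⟨((_ | w') | ⟨n', b'⟩), i'⟩ <;>
  simp [nextMap] at h ⊢ <;> exact h

lemma nextMap_common {W : Type} (x y : V2 (Option W))
    (h : nextMap 0 x = nextMap 1 y) : ∃ o : Option W, x = Sum.inl (Sum.inl o) ∧
      y = Sum.inl (Sum.inl o) := by
  rcases x with ((_ | w) | ⟨n, b⟩) | ⟨((_ | w) | ⟨n, b⟩), i⟩ <;>
  rcases y with ((_ | w') | ⟨n', b'⟩) | ⟨((_ | w') | ⟨n', b'⟩), i'⟩ <;>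
  simp [nextMap] at h ⊢ <;> first
    | exact h.symm
    | omega

lemma matching_X {W : Type} {N : ℕ} {H : SimpleGraph W} (hN : 0 < N) :
    IsMatchingSet (X N H) {e | ∃ v : V1 W, act N v ∧ e = s(Sum.inl v, Sum.inr (v, 0))} := by
  constructor
  · rintro _ ⟨v, hv, rfl⟩
    exact X_adj_of_R (R.leaf v 0 hv hN)
  · rintro _ ⟨v, hv, rfl⟩ _ ⟨v', hv', rfl⟩ x hx hx'
    rw [Sym2.mem_iff] at hx hx'
    rcases hx with rfl | rfl <;> rcases hx' with h | h
    · rw [Sum.inl_injective h]
    · simp at h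
    · simp at h
    · have := Sum.inr_injective h
      simp only [Prod.mk.injEq, and_true] at this
      rw [this]

/-- One round of Builder's strategy. -/
lemma step {W : Type} {k r N N' : ℕ} (hk : 2 ≤ k) (hN : 2 * N' + 1 ≤ N) (H : SimpleGraph W)
    (H₀ H₁ : SimpleGraph (Option W))
    (h₀ : ∀ a b, H₀.Adj (some a) (some b) → H.Adj a b)
    (h₁ : ∀ a b, H₁.Adj (some a) (some b) → H.Adj a b)
    (hdis : Disjoint H₀ H₁)
    (hf₀ : Forces (completeGraph (Fin k)) r (X N' H₀))
    (hf₁ : Forces (completeGraph (Fin k)) r (X N' H₁)) :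
    Forces (completeGraph (Fin k)) (r + 1) (X N H) := by
  classical
  set M : Set (Sym2 (V2 W)) := {e | ∃ v : V1 W, act N v ∧ e = s(Sum.inl v, Sum.inr (v, 0))}
    with hM
  have hMmatch : IsMatchingSet (X N H) M := matching_X (by omega)
  -- facts on the grown graph
  have hnot : ∀ x y : V2 W, s(x, y) ∈ M → (∃ v, x = Sum.inr (v, 0)) ∨ (∃ v, y = Sum.inr (v, 0)) := by
    rintro x y ⟨v, hv, he⟩
    rw [Sym2.eq_iff] at he
    rcases he with ⟨_, h⟩ | ⟨h, _⟩
    · exact Or.inr ⟨v, h⟩
    · exact Or.inl ⟨v, h⟩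
  have hold : ∀ x y : V2 W, (X N H).Adj x y → (∀ v, x ≠ Sum.inr (v, 0)) →
      (∀ v, y ≠ Sum.inr (v, 0)) → (grow (X N H) M).Adj (some x) (some y) := by
    intro x y hxy hx hy
    refine Or.inl ⟨x, y, rfl, rfl, hxy, ?_⟩
    intro hmem
    rcases hnot x y hmem with ⟨v, hv⟩ | ⟨v, hv⟩
    · exact hx v hv
    · exact hy v hv
  have hnew1 : ∀ v : V1 W, act N v → (grow (X N H) M).Adj none (some (Sum.inl v)) := by
    intro v hv
    exact Or.inr (Or.inl ⟨_, rfl, rfl, _, ⟨v, hv, rfl⟩, Sym2.mem_mk_left _ _⟩)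
  have hnew2 : ∀ v : V1 W, act N v → (grow (X N H) M).Adj none (some (Sum.inr (v, 0))) := by
    intro v hv
    exact Or.inr (Or.inl ⟨_, rfl, rfl, _, ⟨v, hv, rfl⟩, Sym2.mem_mk_right _ _⟩)
  have hmap : ∀ c < 2, ∀ K : SimpleGraph (Option W),
      (∀ a b, K.Adj (some a) (some b) → H.Adj a b) →
      ∀ x y, R N' K x y → (grow (X N H) M).Adj (nextMap c x) (nextMap c y) := by
    intro c hc K hK x y hR
    cases hR with
    | ww a b h =>
      rcases a with _ | a <;> rcases b with _ | b
      · exact absurd rfl h.ne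
      · exact hnew1 (Sum.inl b) trivial
      · exact (hnew1 (Sum.inl a) trivial).symm
      · exact hold _ _ (X_adj_of_R (R.ww a b (hK a b h))) (by simp) (by simp)
    | wu a n b h =>
      rcases a with _ | a
      · exact hnew1 (Sum.inr (2 * n + c, b)) (by show 2 * n + c < N; omega)
      · exact hold _ _ (X_adj_of_R (R.wu a (2 * n + c) b (by omega))) (by simp) (by simp)
    | uu n h =>
      exact hold _ _ (X_adj_of_R (R.uu (2 * n + c) (by omega))) (by simp) (by simp)
    | leaf v i hv h =>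
      rcases v with (_ | w) | ⟨n, b⟩
      · exact hnew2 (Sum.inr (2 * i + c, false)) (by show 2 * i + c < N; omega)
      · exact hold _ _ (X_adj_of_R (R.leaf (Sum.inl w) (2 * i + 1 + c) trivial (by omega)))
          (by simp) (by simp)
      · have hv' : n < N' := hv
        exact hold _ _ (X_adj_of_R (R.leaf (Sum.inr (2 * n + c, b)) (i + 1)
          (by show 2 * n + c < N; omega) (by omega))) (by simp) (by simp)
  have hmap' : ∀ c < 2, ∀ K : SimpleGraph (Option W),
      (∀ a b, K.Adj (some a) (some b) → H.Adj a b) →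
      ∀ x y, (X N' K).Adj x y → (grow (X N H) M).Adj (nextMap c x) (nextMap c y) := by
    intro c hc K hK x y hxy
    rcases X_adj_iff.mp hxy with h | h
    · exact hmap c hc K hK x y h
    · exact (hmap c hc K hK y x h).symm
  obtain ⟨G₀, G₁, hs, hd, he₀, he₁⟩ := exists_split (grow (X N H) M) (X N' H₀) (X N' H₁)
    (nextMap 0) (nextMap 1)
    (fun a b c d _ _ hac => nextMap_injective 0 hac)
    (fun a b c d _ _ hac => nextMap_injective 1 hac)
    (hmap' 0 (by norm_num) H₀ h₀) (hmap' 1 (by norm_num) H₁ h₁)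
    (by
      intro a b c d hab hcd hac hbd
      obtain ⟨o, rfl, rfl⟩ := nextMap_common _ _ hac
      obtain ⟨o', rfl, rfl⟩ := nextMap_common _ _ hbd
      have key : ∀ K : SimpleGraph (Option W),
          (X N' K).Adj (Sum.inl (Sum.inl o)) (Sum.inl (Sum.inl o')) → K.Adj o o' := by
        intro K hK
        rcases X_adj_iff.mp hK with h | h
        · cases h with
          | ww _ _ h => exact h
        · cases h with
          | ww _ _ h => exact h.symm
      have : (H₀ ⊓ H₁).Adj o o' := ⟨key _ hab, key _ hcd⟩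
      rw [hdis.eq_bot] at this
      exact this)
  exact ⟨M, hMmatch, G₀, G₁, hs, hd, forces_mono hk r he₀ hf₀, forces_mono hk r he₁ hf₁⟩

end Pool.Agent.Q293.DPG
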